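import Pool.Agent.Helper40.GK.M_LMI

/-! Project GK, LAP: the model in residue classes -/

set_option autoImplicit false

namespace Pool.Agent.Helper40.GK

open Pool.Agent.Helper23.GK
open Finset ArithmeticFunction
open Pool.Agent.Helper48.BK (ex th Sx Apx nd)

/-- the class `u` modulo `q` as a progression -/
theorem LAP_prog (q u y : ℕ) (hq : 1 ≤ q) : ∃ σ : ℕ, σ < q ∧
    (Ioc 0 y).filter (fun n => n ≡ u [MOD q]) =
      (Ioc 0 (0 + (y + σ) / q)).image (fun m => q * m - σ) := by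
  set σ := (q - u % q) % q with hσ
  have h1 : σ < q := Nat.mod_lt _ hq
  have h2 : (u + σ) % q = 0 := by
    have h3 : u % q < q := Nat.mod_lt _ hq
    rcases Nat.eq_zero_or_pos (u % q) with h | h
    · rw [h, Nat.sub_zero, Nat.mod_self] at hσ
      rw [hσ, Nat.add_zero, h]
    · rw [Nat.mod_eq_of_lt (by omega)] at hσ
      rw [hσ, Nat.add_mod, Nat.mod_eq_of_lt (by omega : q - u % q < q)]
      have : u % q + (q - u % q) = q := by omega
      rw [this, Nat.mod_self]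
  refine ⟨σ, h1, ?_⟩
  ext n
  simp only [mem_filter, mem_Ioc, mem_image, zero_add]
  constructor
  · rintro ⟨⟨a1, a2⟩, a3⟩
    have h4 : (n + σ) % q = 0 := by
      have : n + σ ≡ u + σ [MOD q] := a3.add_right σ
      unfold Nat.ModEq at this
      rw [this, h2]
    have h5 : q * ((n + σ) / q) = n + σ := by
      have := Nat.div_add_mod (n + σ) q
      omega
    refine ⟨(n + σ) / q, ⟨?_, ?_⟩, ?_⟩
    · rcases Nat.eq_zero_or_pos ((n + σ) / q) with h | h
      · rw [h, Nat.mul_zero] at h5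
        omega
      · exact h
    · exact Nat.div_le_div_right (by omega)
    · rw [h5]; omega
  · rintro ⟨m, ⟨a1, a2⟩, rfl⟩
    rw [Nat.le_div_iff_mul_le hq] at a2
    have h3 : q * 1 ≤ q * m := Nat.mul_le_mul_left q a1
    have e : m * q = q * m := mul_comm _ _
    refine ⟨⟨by omega, by omega⟩, ?_⟩
    have h4 : (q * m - σ + σ) ≡ u + σ [MOD q] := by
      rw [Nat.sub_add_cancel (by omega)]
      unfold Nat.ModEq
      rw [h2, Nat.mul_mod_right]
    exact Nat.ModEq.add_right_cancel' σ h4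

theorem LAP_inj (q σ M : ℕ) (hq : 1 ≤ q) (hσ : σ < q) :
    Set.InjOn (fun m => q * m - σ) ((Ioc 0 (0 + M) : Finset ℕ) : Set ℕ) := by
  intro a ha b hb h
  simp only [coe_Ioc, Set.mem_Ioc] at ha hb
  simp only at h
  have h3 : q * 1 ≤ q * a := Nat.mul_le_mul_left q ha.1
  have h4 : q * 1 ≤ q * b := Nat.mul_le_mul_left q hb.1
  have h5 : q * a = q * b := by omega
  exact Nat.eq_of_mul_eq_mul_left hq h5

theorem LAP_cR (q r n u : ℕ) (hr : r ∣ q) (h : n ≡ u [MOD q]) : cR r (n : ℤ) = cR r (u : ℤ) := by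
  unfold cR
  congr 1
  apply filter_congr
  intro d hd
  have h1 : d ∣ q := (Nat.dvd_of_mem_divisors hd).trans hr
  have h2 : n ≡ u [MOD d] := h.of_dvd h1
  rw [Int.natCast_dvd_natCast, Int.natCast_dvd_natCast]
  exact h2.dvd_iff dvd_rfl

theorem LAP_count (q σ y : ℕ) (hq : 1 ≤ q) (hσ : σ < q) :
    |(((y + σ) / q : ℕ) : ℝ) - y / q| ≤ 1 := by
  have hq0 : (0 : ℝ) < q := by exact_mod_cast hq
  have h1 : q * ((y + σ) / q) ≤ y + σ := Nat.mul_div_le _ _
  have h2 : y + σ < q * ((y + σ) / q + 1) := Nat.lt_mul_div_succ _ hq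
  set M := (y + σ) / q with hM
  have h1' : (q : ℝ) * M ≤ y + σ := by exact_mod_cast h1
  have h2' : (y : ℝ) + σ < q * (M + 1) := by exact_mod_cast h2
  have h3 : (σ : ℝ) < q := by exact_mod_cast hσ
  have e : (M : ℝ) - y / q = (q * M - y) / q := by field_simp
  have h4 : (0 : ℝ) ≤ σ := by positivity
  rw [e, abs_div, abs_of_pos hq0, div_le_one hq0, abs_le]
  constructor <;> nlinarith

theorem LAP_small (q u y r b : ℕ) (hq : 1 ≤ q) (hr : 1 ≤ r) (hrq : ¬ r ∣ q)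
    (hb : Nat.Coprime b r) :
    ‖∑ n ∈ (Ioc 0 y).filter (fun n => n ≡ u [MOD q]), ex ((b : ℝ) * n / r)‖ ≤ (r : ℝ) / 2 := by
  have hr0 : (0 : ℝ) < r := by exact_mod_cast hr
  obtain ⟨σ, hσ, hS⟩ := LAP_prog q u y hq
  rw [hS, sum_image (LAP_inj q σ _ hq hσ)]
  have hnd : 1 / (r : ℝ) ≤ nd ((b : ℝ) * q / r) := by
    unfold nd
    set m := round ((b : ℝ) * q / r) with hm
    have hne : (b : ℤ) * q - m * r ≠ 0 := by
      intro h2
      have h3 : (r : ℤ) ∣ b * q := ⟨m, by linarith⟩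
      have h4 : r ∣ b * q := by exact_mod_cast h3
      exact hrq (hb.symm.dvd_of_dvd_mul_left h4)
    have h1 : (1 : ℝ) ≤ |(((b : ℤ) * q - m * r : ℤ) : ℝ)| := by
      rw [← Int.cast_abs]
      exact_mod_cast Int.one_le_abs hne
    have h2 : (b : ℝ) * q / r - m = (((b : ℤ) * q - m * r : ℤ) : ℝ) / r := by
      push_cast
      field_simp
    rw [h2, abs_div, abs_of_pos hr0]
    exact div_le_div_of_nonneg_right h1 hr0.le
  have h8 := LMI_geo 0 ((y + σ) / q) (by positivity) hnd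
  have e2 : ∑ x ∈ Ioc 0 (0 + (y + σ) / q), ex ((b : ℝ) * ((q * x - σ : ℕ) : ℝ) / r) =
      ex (-((b : ℝ) * σ / r)) * ∑ n ∈ Ioc 0 (0 + (y + σ) / q), ex (n * ((b : ℝ) * q / r)) := by
    rw [mul_sum]
    refine sum_congr rfl fun m hm => ?_
    rw [LMI_add]
    congr 1
    rw [mem_Ioc] at hm
    have h3 : q * 1 ≤ q * m := Nat.mul_le_mul_left q hm.1
    rw [Nat.cast_sub (by omega)]
    push_cast
    ring
  rw [e2, norm_mul, Pool.Agent.Helper48.BK.ex_norm_Geo1, one_mul]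
  refine h8.trans (le_of_eq ?_)
  field_simp

theorem hLAP (h0 : StRam) : StLap := by
  intro Q q u y hq hqQ
  obtain ⟨hram, -, -, hd, -⟩ := h0
  set S := (Ioc 0 y).filter (fun n => n ≡ u [MOD q]) with hS
  set c : ℕ → ℕ → ℝ := fun r n => (moebius r : ℝ) / (Nat.totient r : ℝ) * (cR r n : ℝ) with hc
  set V : ℝ := if Nat.Coprime u q then (q : ℝ) / Nat.totient q else 0 with hV
  have hq0 : (0 : ℝ) < q := by exact_mod_cast hq
  have hφ : (1 : ℝ) ≤ Nat.totient q := by exact_mod_cast Nat.totient_pos.2 hq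
  have hV0 : 0 ≤ V := by
    rw [hV]
    split_ifs <;> positivity
  have hVq : V ≤ q := by
    rw [hV]
    split_ifs
    · exact div_le_self hq0.le hφ
    · exact hq0.le
  have hsub : q.divisors ⊆ Icc 1 Q := by
    intro r hr
    rw [mem_Icc]
    exact ⟨Nat.pos_of_mem_divisors hr, (Nat.divisor_le hr).trans hqQ⟩
  -- the divisors of `q`
  have h1 : ∀ n ∈ S, ∑ r ∈ q.divisors, c r n = V := by
    intro n hn
    rw [hV, ← hd q u hq]
    refine sum_congr rfl fun r hr => ?_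
    simp only [hc]
    rw [LAP_cR q r n u (Nat.dvd_of_mem_divisors hr) (mem_filter.1 hn).2]
  obtain ⟨σ, hσ, hSi⟩ := LAP_prog q u y hq
  have hcard : S.card = (y + σ) / q := by
    rw [hS, hSi, card_image_of_injOn (LAP_inj q σ _ hq hσ), Nat.card_Ioc, Nat.zero_add,
      Nat.sub_zero]
  have h2 : ∑ n ∈ S, ∑ r ∈ q.divisors, c r n = (S.card : ℝ) * V := by
    rw [sum_congr rfl h1, sum_const, nsmul_eq_mul]
  have h3 : |(S.card : ℝ) * V - y / q * V| ≤ Q := by
    rw [← sub_mul, abs_mul, abs_of_nonneg hV0, hcard]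
    have h4 := LAP_count q σ y hq hσ
    have h5 := mul_le_mul_of_nonneg_right h4 hV0
    have h6 : (q : ℝ) ≤ Q := by exact_mod_cast hqQ
    linarith
  have h4 : (y : ℝ) / q * V = if Nat.Coprime u q then (y : ℝ) / Nat.totient q else 0 := by
    rw [hV]
    split_ifs
    · field_simp
    · rw [mul_zero]
  -- the others
  have h5 : |∑ n ∈ S, ∑ r ∈ Icc 1 Q \ q.divisors, c r n| ≤
      ∑ r ∈ Icc 1 Q \ q.divisors, (r : ℝ) / 2 := by
    have h6 := LMI_gen hram (Icc 1 Q \ q.divisors) S (fun _ => 1) (fun r => (r : ℝ) / 2)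
      (fun r hr => (mem_Icc.1 (mem_sdiff.1 hr).1).1) (fun r _ => by positivity) ?_
    · simp only [mul_one] at h6
      rw [← Complex.ofReal_sum, Complex.norm_real, Real.norm_eq_abs] at h6
      exact h6
    · intro r hr b _ hb
      simp only [mul_one]
      rw [mem_sdiff, mem_Icc] at hr
      refine LAP_small q u y r b hq hr.1.1 ?_ hb
      intro h
      exact hr.2 (Nat.mem_divisors.2 ⟨h, by omega⟩)
  have h6 : ∑ r ∈ Icc 1 Q \ q.divisors, (r : ℝ) / 2 ≤ (Q : ℝ) * (Q / 2) := by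
    have h7 : ∑ r ∈ Icc 1 Q \ q.divisors, (r : ℝ) / 2 ≤ ∑ r ∈ Icc 1 Q, (r : ℝ) / 2 :=
      sum_le_sum_of_subset_of_nonneg sdiff_subset fun r _ _ => by positivity
    refine h7.trans ?_
    have h8 : ∑ r ∈ Icc 1 Q, (r : ℝ) / 2 ≤ ∑ r ∈ Icc 1 Q, (Q : ℝ) / 2 := by
      refine sum_le_sum fun r hr => ?_
      have : (r : ℝ) ≤ Q := by exact_mod_cast (mem_Icc.1 hr).2
      linarith
    rw [sum_const, nsmul_eq_mul, Nat.card_Icc, Nat.add_sub_cancel] at h8
    exact h8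
  have h7 : ∑ n ∈ S, LQ Q n = ∑ n ∈ S, ∑ r ∈ Icc 1 Q \ q.divisors, c r n +
      ∑ n ∈ S, ∑ r ∈ q.divisors, c r n := by
    rw [← sum_add_distrib]
    refine sum_congr rfl fun n _ => ?_
    rw [sum_sdiff hsub]
    rfl
  rw [h7, h2, ← h4]
  have h8 : ∑ n ∈ S, ∑ r ∈ Icc 1 Q \ q.divisors, c r n + (S.card : ℝ) * V - y / q * V =
      ∑ n ∈ S, ∑ r ∈ Icc 1 Q \ q.divisors, c r n + ((S.card : ℝ) * V - y / q * V) := by ring
  rw [h8]
  refine (abs_add_le _ _).trans ?_
  have hQ1 : (1 : ℝ) ≤ Q := by exact_mod_cast hq.trans hqQ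
  nlinarith

end Pool.Agent.Helper40.GK
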