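import Pool.Agent.Helper23.GK.StG
import Pool.Agent.Helper48.BK.M_Geo1

/-! Project GK, LMI: the model on minor arcs -/

set_option autoImplicit false

namespace Pool.Agent.Helper40.GK

open Pool.Agent.Helper23.GK
open Finset ArithmeticFunction
open Pool.Agent.Helper48.BK (ex th Sx Apx nd)

theorem LMI_geo (u N : ℕ) {t c : ℝ} (hc : 0 < c) (h : c ≤ nd t) :
    ‖∑ n ∈ Ioc u (u + N), ex (n * t)‖ ≤ 1 / (2 * c) := by
  have e1 : ∑ n ∈ Ioc u (u + N), ex (n * t) = ∑ n ∈ Ioc u (u + N), ex t ^ n :=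
    Finset.sum_congr rfl (fun n _ => Pool.Agent.Helper48.BK.ex_pow_Geo1 n t)
  have e2 := Pool.Agent.Helper48.BK.geo_Geo1 u N (ex t)
  have e3 : ‖∑ n ∈ Ioc u (u + N), ex (n * t)‖ * ‖ex t - 1‖ ≤ 2 := by
    rw [e1, ← norm_mul, e2]
    refine (norm_sub_le _ _).trans ?_
    rw [norm_pow, norm_pow, Pool.Agent.Helper48.BK.ex_norm_Geo1]
    norm_num
  have e4 := Pool.Agent.Helper48.BK.low_Geo1 t
  have e5 := norm_nonneg (∑ n ∈ Ioc u (u + N), ex (n * t))
  rw [le_div_iff₀ (by positivity)]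
  nlinarith

theorem LMI_add (s t : ℝ) : ex s * ex t = ex (s + t) := by
  unfold ex
  rw [← Complex.exp_add]
  congr 1
  push_cast
  ring

theorem LMI_coef (r : ℕ) (hr : 1 ≤ r) :
    |(moebius r : ℝ) / (Nat.totient r : ℝ)| * (Nat.totient r : ℝ) ≤ 1 := by
  have h1 : |(moebius r : ℝ)| ≤ 1 := by exact_mod_cast abs_moebius_le_one
  have h2 : (0 : ℝ) < Nat.totient r := by exact_mod_cast Nat.totient_pos.2 hr
  rw [abs_div, abs_of_pos h2, div_mul_cancel₀ _ h2.ne']
  exact h1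

theorem LMI_gen (hram : ∀ (q : ℕ) (n : ℤ), 1 ≤ q → ((cR q n : ℤ) : ℂ) =
    ∑ b ∈ (range q).filter (fun b => Nat.Coprime b q), ex ((b : ℝ) * n / q))
    (R S : Finset ℕ) (F : ℕ → ℂ) (B : ℕ → ℝ) (hR : ∀ r ∈ R, 1 ≤ r) (hB0 : ∀ r ∈ R, 0 ≤ B r)
    (hB : ∀ r ∈ R, ∀ b ∈ range r, Nat.Coprime b r →
      ‖∑ n ∈ S, ex ((b : ℝ) * n / r) * F n‖ ≤ B r) :
    ‖∑ n ∈ S, ((∑ r ∈ R, (moebius r : ℝ) / (Nat.totient r : ℝ) * (cR r n : ℝ) : ℝ) : ℂ) * F n‖ ≤
      ∑ r ∈ R, B r := by
  have e1 : ∀ n ∈ S, ((∑ r ∈ R, (moebius r : ℝ) / (Nat.totient r : ℝ) * (cR r n : ℝ) : ℝ) : ℂ) *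
      F n = ∑ r ∈ R, ((((moebius r : ℝ) / (Nat.totient r : ℝ) : ℝ)) : ℂ) *
        ∑ b ∈ (range r).filter (fun b => Nat.Coprime b r), ex ((b : ℝ) * n / r) * F n := by
    intro n _
    rw [Complex.ofReal_sum, sum_mul]
    refine sum_congr rfl fun r hr => ?_
    rw [Complex.ofReal_mul, mul_assoc]
    congr 1
    have h := hram r n (hR r hr)
    rw [Complex.ofReal_intCast, h, sum_mul]
    simp
  rw [sum_congr rfl e1, sum_comm]
  refine (norm_sum_le _ _).trans (sum_le_sum fun r hr => ?_)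
  rw [← mul_sum, sum_comm, norm_mul, Complex.norm_real, Real.norm_eq_abs]
  have h1 : ‖∑ b ∈ (range r).filter (fun b => Nat.Coprime b r),
      ∑ n ∈ S, ex ((b : ℝ) * n / r) * F n‖ ≤ (Nat.totient r : ℝ) * B r := by
    refine (norm_sum_le _ _).trans ?_
    have h2 : ((range r).filter (fun b => Nat.Coprime b r)).card = Nat.totient r := by
      rw [Nat.totient_eq_card_coprime]
      congr 1
      exact filter_congr fun b _ => Nat.coprime_comm
    rw [← h2, ← nsmul_eq_mul]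
    refine sum_le_card_nsmul _ _ _ fun b hb => ?_
    rw [mem_filter] at hb
    exact hB r hr b hb.1 hb.2
  refine (mul_le_mul_of_nonneg_left h1 (abs_nonneg _)).trans ?_
  rw [← mul_assoc]
  have := mul_le_mul_of_nonneg_right (LMI_coef r (hR r hr)) (hB0 r hr)
  linarith

theorem hLMI (h0 : StRam) : StLmi := by
  intro Q q y h α hQ hq hc hα
  have hq0 : (0 : ℝ) < q := by
    have : 0 < q := by omega
    exact_mod_cast this
  have hQ0 : (0 : ℝ) < Q := by exact_mod_cast hQ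
  have hmain := LMI_gen h0.1 (Icc 1 Q) (Ioc 0 y) (fun n => ex (n * α)) (fun r => (q : ℝ) * r)
    (fun r hr => (mem_Icc.1 hr).1) (fun r _ => by positivity) ?_
  · have e : Sx (LQ Q) y α = ∑ n ∈ Ioc 0 y, ((∑ r ∈ Icc 1 Q, (moebius r : ℝ) /
        (Nat.totient r : ℝ) * (cR r n : ℝ) : ℝ) : ℂ) * ex (n * α) := rfl
    rw [e]
    refine hmain.trans ?_
    have h1 : ∑ r ∈ Icc 1 Q, (q : ℝ) * r ≤ ∑ r ∈ Icc 1 Q, (q : ℝ) * Q := by
      refine sum_le_sum fun r hr => mul_le_mul_of_nonneg_left ?_ hq0.le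
      exact_mod_cast (mem_Icc.1 hr).2
    refine h1.trans (le_of_eq ?_)
    rw [sum_const, nsmul_eq_mul, Nat.card_Icc]
    push_cast
    ring
  · intro r hr b hb hbr
    rw [mem_Icc] at hr
    have hr0 : (0 : ℝ) < r := by exact_mod_cast hr.1
    have hnd : 1 / (2 * q * r : ℝ) ≤ nd (α + b / r) := by
      unfold nd
      set m := round (α + (b : ℝ) / r) with hm
      -- the numerator
      have hne : h * r + b * q - m * (q * r) ≠ 0 := by
        intro h2
        have h3 : (q : ℤ) ∣ h * r := by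
          refine ⟨m * r - b, ?_⟩
          linarith
        have h4 : (q : ℤ) ∣ r := hc.symm.dvd_of_dvd_mul_left h3
        have h5 : q ∣ r := by exact_mod_cast h4
        have := Nat.le_of_dvd hr.1 h5
        omega
      have h1 : (1 : ℝ) ≤ |((h * r + b * q - m * (q * r) : ℤ) : ℝ)| := by
        rw [← Int.cast_abs]
        exact_mod_cast Int.one_le_abs hne
      have h2 : (h : ℝ) / q + b / r - m = ((h * r + b * q - m * (q * r) : ℤ) : ℝ) / (q * r) := by
        push_cast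
        field_simp
      have h3 : 1 / (q * r : ℝ) ≤ |(h : ℝ) / q + b / r - m| := by
        rw [h2, abs_div, abs_of_pos (by positivity : (0 : ℝ) < q * r)]
        exact div_le_div_of_nonneg_right h1 (by positivity)
      have h4 : (h : ℝ) / q + b / r - m = (α + b / r - m) - (α - h / q) := by ring
      rw [h4] at h3
      have h5 := h3.trans (abs_sub _ _)
      have h6 : 1 / (2 * q * Q : ℝ) ≤ 1 / (2 * q * r) := by
        apply one_div_le_one_div_of_le (by positivity)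
        have : (r : ℝ) ≤ Q := by exact_mod_cast hr.2
        nlinarith
      have h7 : 1 / (q * r : ℝ) = 1 / (2 * q * r) + 1 / (2 * q * r) := by
        field_simp
        norm_num
      linarith
    have h8 := LMI_geo 0 y (by positivity) hnd
    have e2 : ∑ n ∈ Ioc 0 y, ex ((b : ℝ) * n / r) * ex (n * α) =
        ∑ n ∈ Ioc 0 (0 + y), ex (n * (α + b / r)) := by
      rw [zero_add]
      refine sum_congr rfl fun n _ => ?_
      rw [LMI_add]
      congr 1
      ring
    rw [e2]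
    refine h8.trans (le_of_eq ?_)
    field_simp

end Pool.Agent.Helper40.GK
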