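import Pool.Agent.Helper23.GK.StB

/-! Project GK, RES: reduction of residue classes -/

set_option autoImplicit false

namespace Pool.Agent.Helper40.GK

open Pool.Agent.Helper23.GK
open Finset
open Pool.Agent.Helper2.MR (ch)

theorem RES_norm (t θ : ℝ) (n : ℕ) : ‖cs t θ n‖ = 1 := by
  unfold cs
  rw [Complex.norm_exp_ofReal_mul_I]

theorem RES_mul (t : ℝ) {q m r : ℕ} (hq : 1 ≤ q) (h : 0 < q * m + r) :
    ch t (q * m + r) = Complex.exp (((-(t * Real.log q) : ℝ) : ℂ) * Complex.I) *
      cs t ((r : ℝ) / q) m := by
  unfold ch cs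
  rw [← Complex.exp_add, ← add_mul, ← Complex.ofReal_add]
  congr 3
  have hq0 : (q : ℝ) ≠ 0 := by
    have : 0 < q := hq
    positivity
  have e : ((q * m + r : ℕ) : ℝ) = q * ((m : ℝ) + r / q) := by
    push_cast
    field_simp
  have h1 : (m : ℝ) + r / q ≠ 0 := by
    intro h0
    rw [h0, mul_zero] at e
    have : (0 : ℝ) < ((q * m + r : ℕ) : ℝ) := by exact_mod_cast h
    linarith
  rw [e, Real.log_mul hq0 h1]
  ring

theorem hRES : StRes := by
  intro N N' q u t hN hN' hq
  classical
  set r := u % q with hr
  have hrq : r < q := Nat.mod_lt _ hq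
  set m0 := N / q with hm0
  set m1 := max m0 (min ((N' - r) / q) (2 * m0)) with hm1
  have h1 : q * m0 ≤ N := Nat.mul_div_le N q
  have h2 : N < q * (m0 + 1) := Nat.lt_mul_div_succ N hq
  refine ⟨m0, m1, (r : ℝ) / q, by positivity, ?_, le_max_left _ _, ?_, h1, ?_, ?_⟩
  · rw [div_le_one (by exact_mod_cast hq)]
    exact_mod_cast hrq.le
  · apply max_le (by omega) (min_le_right _ _)
  · nlinarith
  · set T := (range (2 * m0 + 2)).filter (fun m => N < q * m + r ∧ q * m + r ≤ N') with hT
    have hS : (Ioc N N').filter (fun n => n ≡ u [MOD q]) = T.image (fun m => q * m + r) := by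
      ext n
      simp only [mem_filter, mem_Ioc, mem_image, hT, mem_range]
      constructor
      · rintro ⟨⟨a1, a2⟩, a3⟩
        have e1 : q * (n / q) + r = n := by
          have : n % q = r := a3
          rw [← this]
          exact Nat.div_add_mod n q
        refine ⟨n / q, ⟨?_, ?_, ?_⟩, e1⟩
        · have : n < q * (2 * (m0 + 1)) := by nlinarith
          have := Nat.div_lt_of_lt_mul this
          omega
        · rw [e1]; exact a1
        · rw [e1]; exact a2
      · rintro ⟨m, ⟨_, a2, a3⟩, rfl⟩
        refine ⟨⟨a2, a3⟩, ?_⟩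
        unfold Nat.ModEq
        rw [Nat.mul_add_mod, Nat.mod_eq_of_lt hrq]
    have hinj : ∀ a ∈ T, ∀ b ∈ T, (fun m => q * m + r) a = (fun m => q * m + r) b → a = b := by
      intro a _ b _ h
      simp only [add_left_inj] at h
      exact Nat.eq_of_mul_eq_mul_left hq h
    rw [hS, sum_image hinj]
    have e1 : ∑ m ∈ T, ch t (q * m + r) = Complex.exp (((-(t * Real.log q) : ℝ) : ℂ) * Complex.I) *
        ∑ m ∈ T, cs t ((r : ℝ) / q) m := by
      rw [mul_sum]
      refine sum_congr rfl fun m hm => RES_mul t hq ?_
      simp only [hT, mem_filter] at hm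
      omega
    rw [e1, norm_mul, Complex.norm_exp_ofReal_mul_I, one_mul]
    have hsub : Ioc m0 m1 ⊆ T := by
      intro m hm
      rw [mem_Ioc] at hm
      obtain ⟨a1, a2⟩ := hm
      have a3 : m ≤ min ((N' - r) / q) (2 * m0) := by
        rcases le_total (min ((N' - r) / q) (2 * m0)) m0 with h | h
        · rw [hm1, max_eq_left h] at a2
          omega
        · rw [hm1, max_eq_right h] at a2
          exact a2
      have a4 : m ≤ (N' - r) / q := a3.trans (min_le_left _ _)
      have a5 : m ≤ 2 * m0 := a3.trans (min_le_right _ _)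
      rw [Nat.le_div_iff_mul_le hq] at a4
      simp only [hT, mem_filter, mem_range]
      have a6 : q * (m0 + 1) ≤ q * m := Nat.mul_le_mul_left q a1
      have a7 : 0 < q * m := by
        have : 0 < m := by omega
        positivity
      refine ⟨by omega, by omega, ?_⟩
      have : m * q = q * m := mul_comm _ _
      omega
    have hdiff : T \ Ioc m0 m1 ⊆ {m0, 2 * m0 + 1} := by
      intro m hm
      rw [mem_sdiff] at hm
      obtain ⟨a1, a2⟩ := hm
      simp only [hT, mem_filter, mem_range] at a1
      obtain ⟨b1, b2, b3⟩ := a1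
      rw [mem_insert, mem_singleton]
      by_contra hcon
      push Not at hcon
      apply a2
      have c1 : m0 ≤ m := by
        by_contra h
        push Not at h
        have : q * (m + 1) ≤ q * m0 := Nat.mul_le_mul_left q h
        have e : q * (m + 1) = q * m + q := by ring
        omega
      have c2 : m0 < m := by omega
      have c3 : m ≤ 2 * m0 := by omega
      have c4 : m ≤ (N' - r) / q := by
        rw [Nat.le_div_iff_mul_le hq]
        have : m * q = q * m := mul_comm _ _
        omega
      rw [mem_Ioc]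
      refine ⟨c2, ?_⟩
      exact (le_min c4 c3).trans (le_max_right _ _)
    rw [← sum_sdiff hsub]
    refine (norm_add_le _ _).trans ?_
    have h3 : ‖∑ x ∈ T \ Ioc m0 m1, cs t ((r : ℝ) / q) x‖ ≤ 2 := by
      refine (norm_sum_le _ _).trans ?_
      simp only [RES_norm, sum_const, nsmul_eq_mul, mul_one]
      have := card_le_card hdiff
      have h4 : ({m0, 2 * m0 + 1} : Finset ℕ).card ≤ 2 := card_le_two
      exact_mod_cast this.trans h4
    linarith

end Pool.Agent.Helper40.GK
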